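import Pool.Agent.Run7.h479.XX.Cls
import Pool.Agent.Run7.h479.XX.Unit

/-!
# Kato's main conjecture in analytic rank zero: an inequality for one limit over the numbers of points

In the notation of the problem let the image of `ρ` contain a conjugate of `SL_2(ℤ_p)`; then `H` is free over `Λ` with a
generator `h₀`, `z = λ h₀`, `char_Λ(H / Λ z) = (λ)`, and by Kato's theorem `λ = g h` for the generator `g` of `char_Λ X`. Let
`φ : H → ℚ_p` be the map `y ↦ exp*(loc^s_p y_ℚ) / ω_E` at the bottom layer: `φ(a y) = a(0) φ(y)` for `a ∈ Λ = ℤ_p[[X]]`, and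
`φ(z) = L^{(p)}(E, 1) / Ω_E^+`, a rational number. For `γ > π/2`, `T > 0` put

`S(T) = ∑_{ℓ ≠ p} ∑_{k ≥ 1} (β_{ℓ,1}^k + β_{ℓ,2}^k) / (k ℓ^k) · exp(iγ k log ℓ / T) / Γ(1 + k log ℓ / T)`,

where `β_{ℓ,1}^k + β_{ℓ,2}^k = q + 1 - #E(𝔽_q)`, `q = ℓ^k`, for the primes `ℓ` of good reduction. The series converges
absolutely and `exp(S(T)) → L^{(p)}(E, 1)` for `T → ∞`, without any hypothesis on zeros. Let `L(E, 1) ≠ 0`, i.e.
`exp(S(T)) → x Ω_E^+` for a rational `x ≠ 0`. Then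

`|x|_p ≤ |g(0)|_p |φ(h₀)|_p`, with equality if and only if `char_Λ(H / Λ z) = char_Λ X`.

So in analytic rank zero Q1 for `(E, p)`, for every reduction type, is an upper bound for the power of `p` in the
limit `x` over the numbers of points of `E` over finite fields: `ord_p(x) ≤ ord_p(g(0)) + ord_p(φ(h₀))`.

The law for Euler products with complex coefficients at an arbitrary real point is due to helper453 (library
`Pool.Agent.Run7.h453.CX`, used in `MP_46b841_nt.ChebotarevAtZero`). That the bottom layer suffices given the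
divisibility is well known.
-/

set_option autoImplicit false

open Filter Topology Set Run7.h479.XX Run7.h479.XX.Bounded

namespace Pool.Agent.Results.MP_ffe9ba_nt.InequalityDecides

/-- The number of the points of the projective curve with the Weierstrass equation `E` over the field `κ`
(including a singular point, if there is one). -/
noncomputable def points (E : WeierstrassCurve ℤ) (κ : Type) [Field κ] : ℕ :=
  1 + Nat.card {u : κ × κ // (E.map (Int.castRingHom κ)).toAffine.Equation u.1 u.2}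

/-- The numbers `β_{ℓ,1}, β_{ℓ,2}`: of absolute value at most `√ℓ`, and for `ℓ` outside the finite set `S` given by the
numbers of points over the finite fields of characteristic `ℓ`. -/
structure Frobenius (E : WeierstrassCurve ℤ) (S : Finset Nat.Primes) (β : Nat.Primes → Fin 2 → ℂ) :
    Prop where
  good : ∀ ℓ ∉ S, ∀ (κ : Type) [Field κ] [Finite κ] (k : ℕ), Nat.card κ = (ℓ : ℕ) ^ k →
    (points E κ : ℂ) = ((ℓ : ℕ) : ℂ) ^ k + 1 - (β ℓ 0 ^ k + β ℓ 1 ^ k)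
  norm : ∀ ℓ j, ‖β ℓ j‖ ≤ √(ℓ : ℕ)

/-- `L(s) = L(E, χ, s)`: the Euler product for `Re s > 3/2`, analytic at the points of the real interval
`[1, 3/2]`. -/
structure IsTwist {N : ℕ} (β : Nat.Primes → Fin 2 → ℂ) (χ : DirichletCharacter ℂ N) (L : ℂ → ℂ) :
    Prop where
  euler : ∀ s : ℂ, 3 / 2 < s.re → L s = ∏' ℓ : Nat.Primes, ∏ j,
    (1 - χ (ℓ : ℕ) * β ℓ j * ((ℓ : ℕ) : ℂ) ^ (-s))⁻¹
  analytic : ∀ x : ℝ, 1 ≤ x → x ≤ 3 / 2 → AnalyticAt ℂ L (x : ℂ)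

/-- The weight `exp(iγ t / T) / Γ(1 + t / T)`. -/
noncomputable def weight (γ T t : ℝ) : ℂ :=
  Complex.exp ((γ * (t / T) : ℝ) * Complex.I) * ((Real.Gamma (1 + t / T))⁻¹ : ℝ)

/-- The term of `S_χ(T)` for `ℓ = x.1` and `k = x.2`. -/
noncomputable def term {N : ℕ} (β : Nat.Primes → Fin 2 → ℂ) (χ : DirichletCharacter ℂ N) (γ T : ℝ)
    (x : Nat.Primes × ℕ+) : ℂ :=
  χ (x.1 : ℕ) ^ (x.2 : ℕ) * (β x.1 0 ^ (x.2 : ℕ) + β x.1 1 ^ (x.2 : ℕ)) /
    (((x.2 : ℕ) : ℂ) * ((x.1 : ℕ) : ℂ) ^ (x.2 : ℕ)) * weight γ T ((x.2 : ℕ) * Real.log (x.1 : ℕ))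

/-- `S_χ(T)` -/
noncomputable def sum {N : ℕ} (β : Nat.Primes → Fin 2 → ℂ) (χ : DirichletCharacter ℂ N) (γ T : ℝ) :
    ℂ := ∑' x, term β χ γ T x

section proof

variable {E : WeierstrassCurve ℤ} {S : Finset Nat.Primes} {β : Nat.Primes → Fin 2 → ℂ} {N : ℕ}
  {χ : DirichletCharacter ℂ N} {L : ℂ → ℂ}

theorem term_eq (γ T : ℝ) (x : Nat.Primes × ℕ+) :
    Pool.Agent.Run7.h453.CX.eterm (fun ℓ : Nat.Primes => ((ℓ : ℕ) : ℝ))
      (fun ℓ (k : ℕ+) => ∑ j, (χ (ℓ : ℕ) * β ℓ j) ^ (k : ℕ)) 1 γ T x = term β χ γ T x := by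
  have hn : (0 : ℝ) < ((x.1 : ℕ) : ℝ) := by exact_mod_cast x.1.2.pos
  have e1 : Real.exp (-(1 * (((x.2 : ℕ) : ℝ) * Real.log (x.1 : ℕ)))) =
      (((x.1 : ℕ) : ℝ) ^ (x.2 : ℕ))⁻¹ := by
    rw [← Real.rpow_natCast, ← Real.rpow_neg hn.le, Real.rpow_def_of_pos hn]
    congr 1
    ring
  unfold term Pool.Agent.Run7.h453.CX.eterm Pool.Agent.Run7.h453.CX.rterm
    Pool.Agent.Run7.h453.CX.cEs Pool.Agent.Run7.h453.CX.cE Pool.Agent.Run7.h453.CX.lamE
    Pool.Agent.W189.ML.om weight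
  rw [e1]
  simp only [Fin.sum_univ_two]
  push_cast
  rw [mul_pow, mul_pow, ← mul_add, div_mul_eq_div_div]
  ring

theorem Frobenius.norm' (h : Frobenius E S β) (ℓ : Nat.Primes) (j : Fin 2) :
    ‖χ (ℓ : ℕ) * β ℓ j‖ ≤ ((ℓ : ℕ) : ℝ) ^ (1 / 2 : ℝ) := by
  rw [← Real.sqrt_eq_rpow, norm_mul]
  calc ‖χ (ℓ : ℕ)‖ * ‖β ℓ j‖ ≤ 1 * √(ℓ : ℕ) :=
        mul_le_mul (χ.norm_le_one _) (h.norm ℓ j) (norm_nonneg _) zero_le_one
    _ = _ := one_mul _

theorem two_le (ℓ : Nat.Primes) : (2 : ℝ) ≤ ((ℓ : ℕ) : ℝ) := by exact_mod_cast ℓ.2.two_le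

theorem summable_primes (σ : ℝ) (hσ : 1 < σ) : Summable fun ℓ : Nat.Primes => ((ℓ : ℕ) : ℝ) ^ (-σ) :=
  (Nat.Primes.summable_rpow (r := -σ)).2 (by linarith)

theorem term_summable (h : Frobenius E S β) (χ : DirichletCharacter ℂ N) (γ : ℝ) {T : ℝ}
    (hT : 0 < T) : Summable fun x => ‖term β χ γ T x‖ := by
  have E' := Pool.Agent.Run7.h453.CX.ed_of (N := 2) (κ := 1 / 2)
    (q := fun ℓ : Nat.Primes => ((ℓ : ℕ) : ℝ)) (a := fun ℓ j => χ (ℓ : ℕ) * β ℓ j) two_le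
    summable_primes (fun ℓ j => h.norm' ℓ j)
  exact (E'.eterm_summable 1 γ hT).congr fun x => by rw [term_eq]

theorem sum_lim (h : Frobenius E S β) (hL : IsTwist β χ L) {γ : ℝ} (hγ : Real.pi / 2 < γ) :
    Tendsto (fun T : ℝ => Complex.exp (sum β χ γ T)) atTop (𝓝 (L 1)) := by
  have han := (hL.analytic 1 le_rfl (by norm_num)).continuousAt
  rw [Complex.ofReal_one] at han
  have h1 := law_lim (N := 2) (q := fun ℓ : Nat.Primes => ((ℓ : ℕ) : ℝ))
    (a := fun ℓ j => χ (ℓ : ℕ) * β ℓ j) (κ := 1 / 2) (σ₀ := 1) (F := L) two_le summable_primes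
    (fun ℓ j => h.norm' ℓ j) (fun x hx hx' => (hL.analytic x hx (by linarith)).meromorphicAt)
    (by norm_num) (fun s hs => by
      rw [hL.euler s (by norm_num at hs ⊢; exact hs)]
      simp) (r := 0) (A := L 1) (by
        simpa using han.tendsto.mono_left nhdsWithin_le_nhds) hγ
  simp only [pow_zero, one_mul, Nat.cast_zero, zero_mul, Complex.exp_zero] at h1
  refine h1.congr fun T => ?_
  congr 1
  exact tsum_congr fun x => term_eq γ T x

end proof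

variable {p : ℕ} [Fact p.Prime] {H : Type} [AddCommGroup H] [Module (PowerSeries ℤ_[p]) H]

/-- **Theorem.** Let `L(s) = L^{(p)}(E, s)` be the L-function of `E` without the factor at `p` (the twist by the
trivial character modulo `p`), `H` a `Λ`-module, `Λ = ℤ_p[[X]]`, `h₀ ∈ H`, `z = lam • h₀`, `φ : H → ℚ_p` a map with
`φ(a y) = a(0) φ(y)`, and `φ(z) = w` for a rational `w` with `w Ω = L(1)`, `Ω ≠ 0`. Let `γ > π/2`.

* `S(T)` converges absolutely for `T > 0` and `exp(S(T)) → w Ω`.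
* If `g ∣ lam` and `exp(S(T)) → x Ω` for a rational `x ≠ 0`, then `|x|_p ≤ |g(0)|_p |φ(h₀)|_p`, and `(lam) = (g)` iff
  there is equality. -/
theorem result (E : WeierstrassCurve ℤ) (S : Finset Nat.Primes) (β : Nat.Primes → Fin 2 → ℂ)
    (hβ : Frobenius E S β) (L : ℂ → ℂ) (hL : IsTwist β (1 : DirichletCharacter ℂ p) L) (Ω : ℂ)
    (hΩ : Ω ≠ 0) (h₀ : H) (lam : PowerSeries ℤ_[p]) (φ : H → ℚ_[p])
    (hφ : ∀ (a : PowerSeries ℤ_[p]) (y : H),
      φ (a • y) = ((PowerSeries.constantCoeff a : ℤ_[p]) : ℚ_[p]) * φ y)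
    (w : ℚ) (hw : (w : ℂ) * Ω = L 1) (hz : φ (lam • h₀) = (w : ℚ_[p])) (γ : ℝ)
    (hγ : Real.pi / 2 < γ) :
    (∀ T : ℝ, 0 < T → Summable fun x => ‖term β (1 : DirichletCharacter ℂ p) γ T x‖) ∧
    Tendsto (fun T : ℝ => Complex.exp (sum β (1 : DirichletCharacter ℂ p) γ T)) atTop
      (𝓝 ((w : ℂ) * Ω)) ∧
    (∀ g : PowerSeries ℤ_[p], g ∣ lam → ∀ x : ℚ, x ≠ 0 →
      Tendsto (fun T : ℝ => Complex.exp (sum β (1 : DirichletCharacter ℂ p) γ T)) atTop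
        (𝓝 ((x : ℂ) * Ω)) →
      ‖(x : ℚ_[p])‖ ≤ ‖(PowerSeries.constantCoeff g : ℤ_[p])‖ * ‖φ h₀‖ ∧
      (Ideal.span {lam} = Ideal.span {g} ↔
        ‖(x : ℚ_[p])‖ = ‖(PowerSeries.constantCoeff g : ℤ_[p])‖ * ‖φ h₀‖)) := by
  have hlim : Tendsto (fun T : ℝ => Complex.exp (sum β (1 : DirichletCharacter ℂ p) γ T)) atTop
      (𝓝 ((w : ℂ) * Ω)) := by
    rw [hw]
    exact sum_lim hβ hL hγ
  refine ⟨fun T hT => term_summable hβ _ γ hT, hlim, ?_⟩
  rintro g ⟨h, rfl⟩ x hx hlimx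
  have hxw : x = w := by
    have := mul_right_cancel₀ hΩ (tendsto_nhds_unique hlimx hlim)
    exact_mod_cast this
  have h3 : ((PowerSeries.constantCoeff (g * h) : ℤ_[p]) : ℚ_[p]) * φ h₀ = (x : ℚ_[p]) := by
    rw [← hφ, hz, hxw]
  have hx0 : (x : ℚ_[p]) ≠ 0 := by exact_mod_cast hx
  have h4 : ‖(PowerSeries.constantCoeff g : ℤ_[p])‖ * ‖(PowerSeries.constantCoeff h : ℤ_[p])‖ *
      ‖φ h₀‖ = ‖(x : ℚ_[p])‖ := by
    rw [← h3, norm_mul, map_mul, PadicInt.coe_mul, norm_mul]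
    rfl
  have hpos : 0 < ‖(x : ℚ_[p])‖ := norm_pos_iff.2 hx0
  have hg1 : 0 < ‖(PowerSeries.constantCoeff g : ℤ_[p])‖ := by
    refine lt_of_le_of_ne (norm_nonneg _) fun h5 => ?_
    rw [← h5, zero_mul, zero_mul] at h4
    exact hpos.ne h4
  have hφ1 : 0 < ‖φ h₀‖ := by
    refine lt_of_le_of_ne (norm_nonneg _) fun h5 => ?_
    rw [← h5, mul_zero] at h4
    exact hpos.ne h4
  have hh1 : ‖(PowerSeries.constantCoeff h : ℤ_[p])‖ ≤ 1 := PadicInt.norm_le_one _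
  have hg : g ≠ 0 := by
    rintro rfl
    simp at hg1
  have h5 : Ideal.span {g * h} = Ideal.span {g} ↔ IsUnit h := by
    rw [eq_comm, Ideal.span_singleton_eq_span_singleton]
    constructor
    · rintro ⟨u, hu⟩
      have : (u : PowerSeries ℤ_[p]) = h := mul_left_cancel₀ hg hu
      rw [← this]
      exact u.isUnit
    · rintro ⟨u, rfl⟩
      exact ⟨u, rfl⟩
  have hgφ : 0 < ‖(PowerSeries.constantCoeff g : ℤ_[p])‖ * ‖φ h₀‖ := mul_pos hg1 hφ1
  refine ⟨by rw [← h4]; nlinarith, ?_⟩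
  rw [h5, PowerSeries.isUnit_iff_constantCoeff, PadicInt.isUnit_iff, ← h4]
  constructor
  · intro h6
    rw [h6, mul_one]
  · intro h6
    have h7 : ‖(PowerSeries.constantCoeff g : ℤ_[p])‖ * ‖φ h₀‖ *
        (‖(PowerSeries.constantCoeff h : ℤ_[p])‖ - 1) = 0 := by linarith
    rcases mul_eq_zero.1 h7 with h8 | h8
    · exact absurd h8 hgφ.ne'
    · linarith

end Pool.Agent.Results.MP_ffe9ba_nt.InequalityDecides
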